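import Mathlib
import Pool.Agent.H496.A1.Polar
import Pool.Agent.H496.A1.Unf

/-! A Bessel inequality for kernels. -/

set_option autoImplicit false

namespace Pool.Agent.H496

open MeasureTheory Set Function
open scoped ENNReal NNReal ComplexConjugate

theorem cs {S : Type*} [MeasurableSpace S] (ν : Measure S) {G K : S → ℂ} (hG : Measurable G) (hK : Measurable K) :
    ENNReal.ofReal (‖∫ s, G s * K s ∂ν‖ ^ 2) ≤
      (∫⁻ s, ENNReal.ofReal (‖G s‖ ^ 2) ∂ν) * ∫⁻ s, ENNReal.ofReal (‖K s‖ ^ 2) ∂ν := by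
  have h1 := ENNReal.lintegral_mul_le_Lp_mul_Lq ν Real.HolderConjugate.two_two
    (hG.enorm.aemeasurable) (hK.enorm.aemeasurable)
  have h2 : ‖∫ s, G s * K s ∂ν‖ₑ ≤ ∫⁻ s, ‖G s * K s‖ₑ ∂ν := enorm_integral_le_lintegral_enorm _
  have h3 : ∀ z : ℂ, ENNReal.ofReal (‖z‖ ^ 2) = ‖z‖ₑ ^ (2 : ℝ) := by
    intro z
    rw [ENNReal.ofReal_pow (norm_nonneg _), ofReal_norm, ENNReal.rpow_ofNat]
  simp_rw [h3]
  set A := ∫⁻ s, ‖G s‖ₑ ^ (2 : ℝ) ∂ν with hA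
  set B := ∫⁻ s, ‖K s‖ₑ ^ (2 : ℝ) ∂ν with hB
  have h4 : ‖∫ s, G s * K s ∂ν‖ₑ ≤ A ^ (1 / (2 : ℝ)) * B ^ (1 / (2 : ℝ)) := by
    refine h2.trans ?_
    refine le_trans (le_of_eq ?_) h1
    refine lintegral_congr fun s => ?_
    rw [enorm_mul]
    rfl
  calc ‖∫ s, G s * K s ∂ν‖ₑ ^ (2 : ℝ) ≤ (A ^ (1 / (2 : ℝ)) * B ^ (1 / (2 : ℝ))) ^ (2 : ℝ) :=
        ENNReal.rpow_le_rpow h4 (by norm_num)
    _ = A * B := by
        rw [ENNReal.mul_rpow_of_nonneg _ _ (by norm_num : (0 : ℝ) ≤ 2), ← ENNReal.rpow_mul, ← ENNReal.rpow_mul]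
        norm_num

theorem bessel {X S J : Type*} [MeasurableSpace X] [MeasurableSpace S] [Fintype J] [DecidableEq J] (μ : Measure X)
    (f : J → X → ℂ) (hm : ∀ j, Measurable (f j))
    (ho : ∀ i j, ∫ x, f i x * conj (f j x) ∂μ = if i = j then 1 else 0)
    (ν : Measure S) (φ : S → X) (hφ : Measurable φ) {C : ℝ} (hC : 0 ≤ C)
    (hle : ∀ a : J → ℂ, ∫⁻ s, ENNReal.ofReal (‖∑ j, a j * f j (φ s)‖ ^ 2) ∂ν ≤
      ENNReal.ofReal C * ∫⁻ x, ENNReal.ofReal (‖∑ j, a j * f j x‖ ^ 2) ∂μ)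
    (K : S → ℂ) (hKm : Measurable K) (hK : Integrable (fun s => ‖K s‖ ^ 2) ν)
    (hint : ∀ j, Integrable (fun s => f j (φ s) * K s) ν) :
    ∑ j, ‖∫ s, f j (φ s) * K s ∂ν‖ ^ 2 ≤ C * ∫ s, ‖K s‖ ^ 2 ∂ν := by
  set R : J → ℂ := fun j => ∫ s, f j (φ s) * K s ∂ν with hR
  set s0 : ℝ := ∑ j, ‖R j‖ ^ 2 with hs0
  have hs0n : 0 ≤ s0 := Finset.sum_nonneg fun j _ => sq_nonneg _
  have hk0 : 0 ≤ ∫ s, ‖K s‖ ^ 2 ∂ν := integral_nonneg fun s => sq_nonneg _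
  have e1 : ∫ s, (∑ j, conj (R j) * f j (φ s)) * K s ∂ν = ((s0 : ℝ) : ℂ) := by
    have : ∀ s, (∑ j, conj (R j) * f j (φ s)) * K s = ∑ j, conj (R j) * (f j (φ s) * K s) := by
      intro s
      rw [Finset.sum_mul]
      exact Finset.sum_congr rfl fun j _ => mul_assoc _ _ _
    simp_rw [this]
    rw [integral_finsetSum _ fun j _ => (hint j).const_mul _]
    simp_rw [integral_const_mul]
    rw [hs0]
    push_cast
    refine Finset.sum_congr rfl fun j _ => ?_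
    show conj (R j) * R j = _
    rw [mul_comm, Complex.mul_conj, Complex.normSq_eq_norm_sq]
    push_cast
    rfl
  have hGm : Measurable fun s => ∑ j, conj (R j) * f j (φ s) :=
    Finset.measurable_sum _ fun j _ => ((hm j).comp hφ).const_mul _
  have h1 := cs ν hGm hKm
  rw [e1] at h1
  have h2 := hle (fun j => conj (R j))
  rw [orth_sum μ f (fun j => (hm j).aestronglyMeasurable) ho] at h2
  have h3 : ∑ j, ‖conj (R j)‖ ^ 2 = s0 := by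
    rw [hs0]
    exact Finset.sum_congr rfl fun j _ => by rw [RCLike.norm_conj]
  rw [h3] at h2
  have h4 : ENNReal.ofReal (s0 ^ 2) ≤ ENNReal.ofReal (C * s0 * ∫ s, ‖K s‖ ^ 2 ∂ν) := by
    rw [ENNReal.ofReal_mul (mul_nonneg hC hs0n), ENNReal.ofReal_mul hC,
      ofReal_integral_eq_lintegral_ofReal hK (Filter.Eventually.of_forall fun s => sq_nonneg _)]
    have : ‖((s0 : ℝ) : ℂ)‖ ^ 2 = s0 ^ 2 := by
      rw [Complex.norm_real, Real.norm_eq_abs, sq_abs]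
    rw [this] at h1
    exact h1.trans (mul_le_mul' h2 le_rfl)
  have h5 : s0 ^ 2 ≤ C * s0 * ∫ s, ‖K s‖ ^ 2 ∂ν :=
    (ENNReal.ofReal_le_ofReal_iff (by positivity)).1 h4
  rcases hs0n.eq_or_lt with h0 | h0
  · rw [← h0]
    positivity
  · have : s0 * s0 ≤ s0 * (C * ∫ s, ‖K s‖ ^ 2 ∂ν) := by nlinarith
    exact le_of_mul_le_mul_left this h0

end Pool.Agent.H496
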